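import Pool.Agent.H350.TD.KLB

/-! TD-S1 (for helper592): the double completion. -/

set_option autoImplicit false

namespace Pool.Agent.H350.TD

open Finset
open Pool.Agent.H442R2.KF Pool.Agent.H442R2.KF.TaskB

/-- the bound of the geometric sum -/
noncomputable def cw (q v : ℕ) : ℝ := (q : ℝ) / 2 * (1 / (v : ℝ) + 1 / ((q : ℝ) - v))

theorem cw_nonneg (q v : ℕ) (h : v ≤ q) : 0 ≤ cw q v := by
  unfold cw
  have h1 : (v : ℝ) ≤ q := by exact_mod_cast h
  have h2 : 0 ≤ 1 / ((q : ℝ) - v) := by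
    apply div_nonneg zero_le_one
    linarith
  positivity

theorem card_div (q : ℕ) (hq : Squarefree q) :
    (q.divisors.card : ℝ) ≤ 2 ^ q.primeFactors.card := by
  have h0 : q ≠ 0 := hq.ne_zero
  rw [Nat.card_divisors h0]
  have h1 : ∏ x ∈ q.primeFactors, (q.factorization x + 1) ≤ 2 ^ q.primeFactors.card := by
    apply Finset.prod_le_pow_card
    intro x _
    have := hq.natFactorization_le_one x
    omega
  exact_mod_cast h1

theorem sum_div (q g : ℕ) (hg : g ∣ q) (hq : 0 < q) :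
    ∑ v ∈ (Ico 1 q).filter (fun v => g ∣ v), cw q v ≤ ((q : ℝ) / g) * (1 + Real.log q) := by
  obtain ⟨r, rfl⟩ := hg
  have hg0 : 0 < g := Nat.pos_of_mul_pos_right hq
  have hr0 : 0 < r := Nat.pos_of_mul_pos_left hq
  have hgr : (0 : ℝ) < g := by exact_mod_cast hg0
  have hrr : (0 : ℝ) < r := by exact_mod_cast hr0
  have hset : (Ico 1 (g * r)).filter (fun v => g ∣ v) = (Ico 1 r).image (fun t => g * t) := by
    ext v
    simp only [mem_filter, mem_Ico, mem_image]
    constructor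
    · rintro ⟨⟨h1, h2⟩, t, rfl⟩
      refine ⟨t, ⟨?_, ?_⟩, rfl⟩
      · rcases Nat.eq_zero_or_pos t with h | h
        · rw [h, mul_zero] at h1; omega
        · exact h
      · exact lt_of_mul_lt_mul_left h2 (Nat.zero_le g)
    · rintro ⟨t, ⟨h1, h2⟩, rfl⟩
      refine ⟨⟨Nat.mul_pos hg0 h1, Nat.mul_lt_mul_of_pos_left h2 hg0⟩, Dvd.intro _ rfl⟩
  rw [hset, sum_image (fun a _ b _ hab => Nat.eq_of_mul_eq_mul_left hg0 hab)]
  have hterm : ∀ t ∈ Ico 1 r, cw (g * r) (g * t) =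
      (r : ℝ) / 2 * (1 / (t : ℝ) + 1 / ((r : ℝ) - t)) := by
    intro t ht
    rw [mem_Ico] at ht
    have h1 : (0 : ℝ) < t := by exact_mod_cast ht.1
    have h2 : (0 : ℝ) < (r : ℝ) - t := by
      have : (t : ℝ) < r := by exact_mod_cast ht.2
      linarith
    unfold cw
    push_cast
    rw [← mul_sub]
    field_simp
  rw [sum_congr rfl hterm, ← mul_sum]
  have h3 := Inc.harm r
  have hlog : Real.log r ≤ Real.log ((g * r : ℕ) : ℝ) := by
    apply Real.log_le_log hrr
    exact_mod_cast Nat.le_mul_of_pos_left r hg0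
  have h4 : ((g * r : ℕ) : ℝ) / g = r := by
    push_cast
    field_simp
  rw [h4]
  calc (r : ℝ) / 2 * ∑ t ∈ Ico 1 r, (1 / (t : ℝ) + 1 / ((r : ℝ) - t)) ≤
        (r : ℝ) / 2 * (2 * (1 + Real.log r)) := mul_le_mul_of_nonneg_left h3 (by positivity)
    _ = r * (1 + Real.log r) := by ring
    _ ≤ r * (1 + Real.log ((g * r : ℕ) : ℝ)) := by
        apply mul_le_mul_of_nonneg_left _ hrr.le
        linarith

theorem sum_one (q : ℕ) (hq : 0 < q) :
    ∑ v ∈ Ico 1 q, cw q v ≤ (q : ℝ) * (1 + Real.log q) := by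
  have h := sum_div q 1 (one_dvd q) hq
  have h1 : (Ico 1 q).filter (fun v => 1 ∣ v) = Ico 1 q :=
    filter_true_of_mem fun v _ => one_dvd v
  rw [h1] at h
  simpa using h

theorem sum_gcd (q : ℕ) (hq : Squarefree q) :
    ∑ v ∈ Ico 1 q, cw q v * (Nat.gcd v q : ℝ) ≤
      2 ^ q.primeFactors.card * ((q : ℝ) * (1 + Real.log q)) := by
  have hq0 : 0 < q := Nat.pos_of_ne_zero hq.ne_zero
  have hqr : (0 : ℝ) < q := by exact_mod_cast hq0
  have h1 : ∀ v ∈ Ico 1 q, cw q v * (Nat.gcd v q : ℝ) ≤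
      ∑ g ∈ q.divisors, if g ∣ v then cw q v * (g : ℝ) else 0 := by
    intro v hv
    rw [mem_Ico] at hv
    have hc := cw_nonneg q v hv.2.le
    have hmem : Nat.gcd v q ∈ q.divisors :=
      Nat.mem_divisors.mpr ⟨Nat.gcd_dvd_right v q, hq0.ne'⟩
    have h2 : (if Nat.gcd v q ∣ v then cw q v * ((Nat.gcd v q : ℕ) : ℝ) else 0) ≤
        ∑ g ∈ q.divisors, if g ∣ v then cw q v * (g : ℝ) else 0 :=
      single_le_sum (f := fun g => if g ∣ v then cw q v * (g : ℝ) else 0)
        (fun g _ => by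
          show 0 ≤ (if g ∣ v then cw q v * (g : ℝ) else 0)
          split_ifs
          · positivity
          · exact le_rfl) hmem
    rw [if_pos (Nat.gcd_dvd_left v q)] at h2
    exact h2
  refine (sum_le_sum h1).trans ?_
  rw [sum_comm]
  have h3 : ∀ g ∈ q.divisors, (∑ v ∈ Ico 1 q, if g ∣ v then cw q v * (g : ℝ) else 0) ≤
      (q : ℝ) * (1 + Real.log q) := by
    intro g hg
    have hgd := (Nat.mem_divisors.mp hg).1
    have hg0 : (0 : ℝ) < g := by exact_mod_cast Nat.pos_of_dvd_of_pos hgd hq0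
    rw [← sum_filter, ← sum_mul]
    calc (∑ v ∈ (Ico 1 q).filter (fun v => g ∣ v), cw q v) * (g : ℝ) ≤
          (((q : ℝ) / g) * (1 + Real.log q)) * g :=
          mul_le_mul_of_nonneg_right (sum_div q g hgd hq0) hg0.le
      _ = _ := by field_simp
  refine (sum_le_sum h3).trans ?_
  rw [sum_const, nsmul_eq_mul]
  apply mul_le_mul_of_nonneg_right (card_div q hq)
  have : 0 ≤ Real.log q := Real.log_natCast_nonneg q
  positivity

theorem sum_val (q : ℕ) [NeZero q] (f : ℕ → ℝ) :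
    ∑ w ∈ univ.erase (0 : ZMod q), f w.val = ∑ v ∈ Ico 1 q, f v := by
  refine sum_bij' (fun w _ => w.val) (fun v _ => (v : ZMod q)) ?_ ?_ ?_ ?_ ?_
  · intro w hw
    have hw0 := ne_of_mem_erase hw
    rw [mem_Ico]
    refine ⟨?_, ZMod.val_lt w⟩
    rcases Nat.eq_zero_or_pos w.val with h | h
    · exact absurd ((ZMod.val_eq_zero w).1 h) hw0
    · exact h
  · intro v hv
    rw [mem_Ico] at hv
    rw [mem_erase]
    refine ⟨?_, mem_univ _⟩
    intro h
    rw [ZMod.natCast_eq_zero_iff] at h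
    have := Nat.le_of_dvd (by omega) h
    omega
  · intro w hw
    exact ZMod.natCast_zmod_val w
  · intro v hv
    rw [mem_Ico] at hv
    exact ZMod.val_natCast_of_lt hv.2
  · intro w hw
    rfl

/-- the completed sum -/
noncomputable def AA (q : ℕ) [NeZero q] (m : ZMod q) (J : ℕ) (u : ZMod q) : ℂ :=
  ZMod.stdAddChar (u * m) * ∑ j ∈ range J, ZMod.stdAddChar (u * (j : ZMod q))

theorem AA_zero (q : ℕ) [NeZero q] (m : ZMod q) (J : ℕ) : AA q m J 0 = J := by
  unfold AA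
  simp

theorem AA_le (q : ℕ) [NeZero q] (m : ZMod q) (J : ℕ) (u : ZMod q) (hu : u ≠ 0) :
    ‖AA q m J u‖ ≤ cw q u.val := by
  unfold AA
  rw [norm_mul, AddChar.norm_apply, one_mul]
  exact Inc.geom q u hu J

theorem ind_one (q : ℕ) [NeZero q] (m : ZMod q) (J : ℕ) (x : ZMod q) :
    (∑ j ∈ range J, if m + (j : ZMod q) = x then (1 : ℂ) else 0) =
      (q : ℂ)⁻¹ * ∑ u : ZMod q, ZMod.stdAddChar (-(u * x)) * AA q m J u := by
  have hq : (q : ℂ) ≠ 0 := by exact_mod_cast NeZero.ne q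
  have h1 : ∀ u : ZMod q, (ZMod.stdAddChar (-(u * x)) : ℂ) * AA q m J u =
      ∑ j ∈ range J, (ZMod.stdAddChar (u * (m + (j : ZMod q) - x)) : ℂ) := by
    intro u
    unfold AA
    rw [mul_sum, mul_sum]
    apply sum_congr rfl
    intro j _
    rw [← AddChar.map_add_eq_mul, ← AddChar.map_add_eq_mul]
    congr 1
    ring
  rw [sum_congr rfl (fun u _ => h1 u), sum_comm, mul_sum]
  apply sum_congr rfl
  intro j _
  rw [AddChar.sum_mulShift (ψ := (ZMod.stdAddChar : AddChar (ZMod q) ℂ)) _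
    (ZMod.isPrimitive_stdAddChar q), ZMod.card]
  by_cases h : m + (j : ZMod q) = x
  · rw [if_pos h, if_pos (by rw [h, sub_self])]
    field_simp
  · rw [if_neg h, if_neg (fun h' => h (sub_eq_zero.mp h'))]
    simp

theorem ind_two (q : ℕ) [NeZero q] (κ : (ZMod q)ˣ) (x y : ZMod q) :
    (if x * y = κ then (1 : ℂ) else 0) =
      ∑ t : (ZMod q)ˣ, (if x = (t : ZMod q) then (1 : ℂ) else 0) *
        (if y = (κ : ZMod q) * ((t⁻¹ : (ZMod q)ˣ) : ZMod q) then (1 : ℂ) else 0) := by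
  classical
  by_cases hx : IsUnit x
  · obtain ⟨t₀, rfl⟩ := hx
    rw [sum_eq_single t₀]
    · rw [if_pos rfl, one_mul]
      by_cases h : (t₀ : ZMod q) * y = κ
      · rw [if_pos h, if_pos]
        rw [← h, mul_comm (t₀ : ZMod q) y, mul_assoc, Units.mul_inv, mul_one]
      · rw [if_neg h, if_neg]
        intro h'
        apply h
        rw [h', mul_comm (κ : ZMod q), ← mul_assoc, Units.mul_inv, one_mul]
    · intro t _ ht
      rw [if_neg, zero_mul]
      intro h
      exact ht (Units.ext h.symm)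
    · intro h
      exact absurd (mem_univ _) h
  · rw [if_neg]
    · symm
      apply sum_eq_zero
      intro t _
      rw [if_neg, zero_mul]
      intro h
      exact hx (h ▸ t.isUnit)
    · intro h
      apply hx
      have h1 : IsUnit (x * y) := h ▸ κ.isUnit
      exact isUnit_of_mul_isUnit_left h1

/-- the number of solutions -/
noncomputable def NN (q : ℕ) (κ m n : ZMod q) (J H : ℕ) : ℕ :=
  ((range J ×ˢ range H).filter
    (fun p : ℕ × ℕ => (m + (p.1 : ZMod q)) * (n + (p.2 : ZMod q)) = κ)).card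

theorem fourier (q : ℕ) [NeZero q] (κ : (ZMod q)ˣ) (m n : ZMod q) (J H : ℕ) :
    (NN q κ m n J H : ℂ) = (q : ℂ)⁻¹ ^ 2 * ∑ u : ZMod q, ∑ v : ZMod q,
      AA q m J u * AA q n H v * Kl q (-u) (-(v * κ)) := by
  unfold NN
  rw [card_filter, Nat.cast_sum, sum_product]
  have h1 : ∀ j ∈ range J, ∀ k ∈ range H,
      (((if (m + ((j, k) : ℕ × ℕ).1) * (n + ((j, k) : ℕ × ℕ).2) = (κ : ZMod q) then 1 else 0 : ℕ) : ℂ)) =
      ∑ t : (ZMod q)ˣ, (if m + (j : ZMod q) = (t : ZMod q) then (1 : ℂ) else 0) *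
        (if n + (k : ZMod q) = (κ : ZMod q) * ((t⁻¹ : (ZMod q)ˣ) : ZMod q) then (1 : ℂ) else 0) := by
    intro j _ k _
    rw [← ind_two]
    push_cast
    rfl
  rw [sum_congr rfl (fun j hj => sum_congr rfl (fun k hk => h1 j hj k hk))]
  have h2 : ∑ j ∈ range J, ∑ k ∈ range H,
      ∑ t : (ZMod q)ˣ, (if m + (j : ZMod q) = (t : ZMod q) then (1 : ℂ) else 0) *
        (if n + (k : ZMod q) = (κ : ZMod q) * ((t⁻¹ : (ZMod q)ˣ) : ZMod q) then (1 : ℂ) else 0) =
      ∑ t : (ZMod q)ˣ, (∑ j ∈ range J, if m + (j : ZMod q) = (t : ZMod q) then (1 : ℂ) else 0) *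
        (∑ k ∈ range H,
          if n + (k : ZMod q) = (κ : ZMod q) * ((t⁻¹ : (ZMod q)ˣ) : ZMod q) then (1 : ℂ) else 0) := by
    rw [sum_congr rfl (fun j _ => sum_comm), sum_comm]
    apply sum_congr rfl
    intro t _
    rw [sum_mul_sum]
  rw [h2]
  have h3 : ∀ t : (ZMod q)ˣ,
      (∑ j ∈ range J, if m + (j : ZMod q) = (t : ZMod q) then (1 : ℂ) else 0) *
        (∑ k ∈ range H,
          if n + (k : ZMod q) = (κ : ZMod q) * ((t⁻¹ : (ZMod q)ˣ) : ZMod q) then (1 : ℂ) else 0) =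
      (q : ℂ)⁻¹ ^ 2 * ∑ u : ZMod q, ∑ v : ZMod q, AA q m J u * AA q n H v *
        ZMod.stdAddChar (-u * (t : ZMod q) +
          -(v * (κ : ZMod q)) * ((t⁻¹ : (ZMod q)ˣ) : ZMod q)) := by
    intro t
    rw [ind_one, ind_one]
    have h4 : ∀ u v : ZMod q, AA q m J u * AA q n H v *
        (ZMod.stdAddChar (-u * (t : ZMod q) +
          -(v * (κ : ZMod q)) * ((t⁻¹ : (ZMod q)ˣ) : ZMod q)) : ℂ) =
        ((ZMod.stdAddChar (-(u * (t : ZMod q))) : ℂ) * AA q m J u) *
        ((ZMod.stdAddChar (-(v * ((κ : ZMod q) * ((t⁻¹ : (ZMod q)ˣ) : ZMod q)))) : ℂ) *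
          AA q n H v) := by
      intro u v
      rw [AddChar.map_add_eq_mul, neg_mul, neg_mul, mul_assoc v]
      ring
    rw [sum_congr rfl (fun u _ => sum_congr rfl (fun v _ => h4 u v)), ← sum_mul_sum]
    ring
  rw [sum_congr rfl (fun t _ => h3 t), ← mul_sum]
  congr 1
  rw [sum_comm]
  apply sum_congr rfl
  intro u _
  rw [sum_comm]
  apply sum_congr rfl
  intro v _
  rw [← mul_sum]
  rfl

theorem Kl_00 (q : ℕ) [NeZero q] : Kl q 0 0 = Nat.totient q := by
  unfold Kl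
  simp [ZMod.card_units_eq_totient]

theorem core (q : ℕ) [NeZero q] (hq : Squarefree q) (κ : (ZMod q)ˣ) (m n : ZMod q) (J H : ℕ) :
    |(NN q κ m n J H : ℝ) - (J : ℝ) * H * (Nat.totient q : ℝ) / (q : ℝ) ^ 2| ≤
      4 ^ q.primeFactors.card * (1 + Real.log q) ^ 2 * Real.sqrt q +
        2 ^ q.primeFactors.card * (1 + Real.log q) * ((J : ℝ) + H) / q := by
  have hq0 : 0 < q := Nat.pos_of_ne_zero hq.ne_zero
  have hqr : (0 : ℝ) < q := by exact_mod_cast hq0
  have hqc : (q : ℂ) ≠ 0 := by exact_mod_cast hq0.ne'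
  set L : ℝ := 1 + Real.log q with hL
  have hL0 : 0 ≤ L := by
    have : 0 ≤ Real.log q := Real.log_natCast_nonneg q
    rw [hL]; linarith
  set f : ZMod q → ZMod q → ℂ := fun u v =>
    AA q m J u * AA q n H v * Kl q (-u) (-(v * κ)) with hf
  have hfo := fourier q κ m n J H
  have hsplit : ∑ u : ZMod q, ∑ v : ZMod q, f u v =
      f 0 0 + ∑ v ∈ univ.erase (0 : ZMod q), f 0 v +
        (∑ u ∈ univ.erase (0 : ZMod q), f u 0 +
          ∑ u ∈ univ.erase (0 : ZMod q), ∑ v ∈ univ.erase (0 : ZMod q), f u v) := by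
    rw [← add_sum_erase univ _ (mem_univ (0 : ZMod q)), ← sum_add_distrib]
    congr 1
    · rw [add_sum_erase univ _ (mem_univ (0 : ZMod q))]
    · apply sum_congr rfl
      intro u _
      rw [add_sum_erase univ _ (mem_univ (0 : ZMod q))]
  have hf00 : f 0 0 = (J : ℂ) * H * Nat.totient q := by
    rw [hf]
    simp only
    rw [AA_zero, AA_zero, zero_mul, neg_zero, Kl_00]
  have hgg : ∀ w : ZMod q, (gg q w : ℝ) = (Nat.gcd w.val q : ℝ) := fun w => rfl
  have hu1 : ∀ v : ZMod q, gg q (-(v * κ)) = gg q v := by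
    intro v
    have : -(v * (κ : ZMod q)) = (-κ : ZMod q) * v := by ring
    rw [this]
    exact gg_unit q _ v κ.isUnit.neg
  have hu2 : ∀ v : ZMod q, gg q (-v) = gg q v := by
    intro v
    have : -v = (-1 : ZMod q) * v := by ring
    rw [this]
    exact gg_unit q _ v isUnit_one.neg
  have hS1 : ∑ v ∈ univ.erase (0 : ZMod q), cw q v.val * (Nat.gcd v.val q : ℝ) ≤
      2 ^ q.primeFactors.card * ((q : ℝ) * L) := by
    rw [sum_val q (fun v => cw q v * (Nat.gcd v q : ℝ))]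
    exact sum_gcd q hq
  have hS0 : ∑ v ∈ univ.erase (0 : ZMod q), cw q v.val ≤ (q : ℝ) * L := by
    rw [sum_val q (fun v => cw q v)]
    exact sum_one q hq0
  have hcw : ∀ v : ZMod q, 0 ≤ cw q v.val := fun v => cw_nonneg q _ (ZMod.val_lt v).le
  -- the three error terms
  have e1 : ‖∑ v ∈ univ.erase (0 : ZMod q), f 0 v‖ ≤
      (J : ℝ) * (2 ^ q.primeFactors.card * ((q : ℝ) * L)) := by
    refine (norm_sum_le _ _).trans ?_
    refine le_trans ?_ (mul_le_mul_of_nonneg_left hS1 (Nat.cast_nonneg J))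
    rw [mul_sum]
    apply sum_le_sum
    intro v hv
    have hv0 := ne_of_mem_erase hv
    rw [hf]
    simp only
    rw [AA_zero, neg_zero, norm_mul, norm_mul, Complex.norm_natCast, mul_assoc]
    apply mul_le_mul_of_nonneg_left _ (Nat.cast_nonneg J)
    apply mul_le_mul (AA_le q n H v hv0) _ (norm_nonneg _) (hcw v)
    have := Kl_0c q hq (-(v * κ))
    rw [hu1 v] at this
    exact this
  have e2 : ‖∑ u ∈ univ.erase (0 : ZMod q), f u 0‖ ≤
      (H : ℝ) * (2 ^ q.primeFactors.card * ((q : ℝ) * L)) := by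
    refine (norm_sum_le _ _).trans ?_
    refine le_trans ?_ (mul_le_mul_of_nonneg_left hS1 (Nat.cast_nonneg H))
    rw [mul_sum]
    apply sum_le_sum
    intro u hu
    have hu0 := ne_of_mem_erase hu
    rw [hf]
    simp only
    rw [AA_zero, zero_mul, neg_zero, norm_mul, norm_mul, Complex.norm_natCast,
      mul_comm ‖AA q m J u‖ (H : ℝ), mul_assoc]
    apply mul_le_mul_of_nonneg_left _ (Nat.cast_nonneg H)
    apply mul_le_mul (AA_le q m J u hu0) _ (norm_nonneg _) (hcw u)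
    have := Kl_0c q hq (-u)
    rw [hu2 u] at this
    rw [Kl_symm]
    exact this
  have e3 : ‖∑ u ∈ univ.erase (0 : ZMod q), ∑ v ∈ univ.erase (0 : ZMod q), f u v‖ ≤
      ((q : ℝ) * L) * ((2 ^ q.primeFactors.card * Real.sqrt q) *
        (2 ^ q.primeFactors.card * ((q : ℝ) * L))) := by
    refine (norm_sum_le _ _).trans ?_
    have h1 : ∀ u ∈ univ.erase (0 : ZMod q), ‖∑ v ∈ univ.erase (0 : ZMod q), f u v‖ ≤
        cw q u.val * ((2 ^ q.primeFactors.card * Real.sqrt q) *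
        (2 ^ q.primeFactors.card * ((q : ℝ) * L))) := by
      intro u hu
      have hu0 := ne_of_mem_erase hu
      refine (norm_sum_le _ _).trans ?_
      have h2 : ∀ v ∈ univ.erase (0 : ZMod q), ‖f u v‖ ≤
          cw q u.val * ((2 ^ q.primeFactors.card * Real.sqrt q) *
            (cw q v.val * (Nat.gcd v.val q : ℝ))) := by
        intro v hv
        have hv0 := ne_of_mem_erase hv
        rw [hf]
        simp only
        rw [norm_mul, norm_mul]
        have a1 := AA_le q m J u hu0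
        have a2 := AA_le q n H v hv0
        have a3 := Kl_gen q hq (-u) (-(v * κ))
        rw [hu1 v, hgg] at a3
        calc ‖AA q m J u‖ * ‖AA q n H v‖ * ‖Kl q (-u) (-(v * κ))‖ ≤
              (cw q u.val * cw q v.val) *
                (2 ^ q.primeFactors.card * Real.sqrt q * (Nat.gcd v.val q : ℝ)) :=
              mul_le_mul (mul_le_mul a1 a2 (norm_nonneg _) (hcw u)) a3 (norm_nonneg _)
                (mul_nonneg (hcw u) (hcw v))
          _ = _ := by ring
      refine (sum_le_sum h2).trans ?_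
      rw [← mul_sum, ← mul_sum]
      apply mul_le_mul_of_nonneg_left _ (hcw u)
      apply mul_le_mul_of_nonneg_left hS1 (by positivity)
    refine (sum_le_sum h1).trans ?_
    rw [← sum_mul]
    apply mul_le_mul_of_nonneg_right hS0 (by positivity)
  have hmain : ((NN q κ m n J H : ℝ) - (J : ℝ) * H * (Nat.totient q : ℝ) / (q : ℝ) ^ 2 : ℂ) =
      (q : ℂ)⁻¹ ^ 2 * (∑ v ∈ univ.erase (0 : ZMod q), f 0 v +
        (∑ u ∈ univ.erase (0 : ZMod q), f u 0 +
          ∑ u ∈ univ.erase (0 : ZMod q), ∑ v ∈ univ.erase (0 : ZMod q), f u v)) := by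
    have h1 : ((NN q κ m n J H : ℝ) : ℂ) = (NN q κ m n J H : ℂ) := by push_cast; rfl
    rw [h1, hfo]
    have h2 : ∑ u : ZMod q, ∑ v : ZMod q, AA q m J u * AA q n H v * Kl q (-u) (-(v * κ)) =
      ∑ u : ZMod q, ∑ v : ZMod q, f u v := rfl
    rw [h2, hsplit, hf00]
    push_cast
    field_simp
    ring
  have hnorm : |(NN q κ m n J H : ℝ) - (J : ℝ) * H * (Nat.totient q : ℝ) / (q : ℝ) ^ 2| =
      ‖((NN q κ m n J H : ℝ) - (J : ℝ) * H * (Nat.totient q : ℝ) / (q : ℝ) ^ 2 : ℂ)‖ := by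
    rw [← Real.norm_eq_abs, ← Complex.norm_real]
    congr 1
    push_cast
    rfl
  rw [hnorm, hmain, norm_mul, norm_pow, norm_inv, Complex.norm_natCast]
  have hb : ‖∑ v ∈ univ.erase (0 : ZMod q), f 0 v +
        (∑ u ∈ univ.erase (0 : ZMod q), f u 0 +
          ∑ u ∈ univ.erase (0 : ZMod q), ∑ v ∈ univ.erase (0 : ZMod q), f u v)‖ ≤
      (J : ℝ) * (2 ^ q.primeFactors.card * ((q : ℝ) * L)) +
      ((H : ℝ) * (2 ^ q.primeFactors.card * ((q : ℝ) * L)) +
      ((q : ℝ) * L) * ((2 ^ q.primeFactors.card * Real.sqrt q) *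
        (2 ^ q.primeFactors.card * ((q : ℝ) * L)))) :=
    (norm_add_le _ _).trans (add_le_add e1 ((norm_add_le _ _).trans (add_le_add e2 e3)))
  refine (mul_le_mul_of_nonneg_left hb (by positivity)).trans (le_of_eq ?_)
  have h4 : (4 : ℝ) ^ q.primeFactors.card = 2 ^ q.primeFactors.card * 2 ^ q.primeFactors.card := by
    rw [← mul_pow]; norm_num
  rw [h4]
  field_simp
  ring

end Pool.Agent.H350.TD
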