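import Pool.Graph.R_seed8.H442R2.KF.Inc

/-! TD-S1 (for helper592): bounds for Kloosterman sums modulo a squarefree number, with gcd. -/

set_option autoImplicit false

namespace Pool.Agent.H350.TD

open Finset
open Pool.Agent.H442R2.KF Pool.Agent.H442R2.KF.TaskB

/-- gcd with the modulus -/
def gg (q : ℕ) (w : ZMod q) : ℕ := Nat.gcd w.val q

theorem gg_pos (q : ℕ) [NeZero q] (w : ZMod q) : 0 < gg q w :=
  Nat.gcd_pos_of_pos_right _ (Nat.pos_of_ne_zero (NeZero.ne q))

theorem gg_dvd_mul (q : ℕ) [NeZero q] (α w : ZMod q) : gg q w ∣ gg q (α * w) := by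
  unfold gg
  apply Nat.dvd_gcd
  · rw [ZMod.val_mul, Nat.dvd_mod_iff (Nat.gcd_dvd_right _ _)]
    exact Dvd.dvd.mul_left (Nat.gcd_dvd_left _ _) _
  · exact Nat.gcd_dvd_right _ _

theorem gg_unit (q : ℕ) [NeZero q] (α w : ZMod q) (hα : IsUnit α) : gg q (α * w) = gg q w := by
  obtain ⟨u, rfl⟩ := hα
  apply Nat.dvd_antisymm
  · have := gg_dvd_mul q ((u⁻¹ : (ZMod q)ˣ) : ZMod q) (u * w)
    rwa [← mul_assoc, Units.inv_mul, one_mul] at this
  · exact gg_dvd_mul q _ w

theorem gg_crt (q1 q2 : ℕ) [NeZero q1] [NeZero q2] [NeZero (q1 * q2)] (h : Nat.Coprime q1 q2)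
    (w : ZMod (q1 * q2)) :
    gg (q1 * q2) w =
      gg q1 (ZMod.chineseRemainder h w).1 * gg q2 (ZMod.chineseRemainder h w).2 := by
  have e : ZMod.chineseRemainder h w = (((w.val : ℕ) : ZMod q1), ((w.val : ℕ) : ZMod q2)) := by
    conv_lhs => rw [← ZMod.natCast_zmod_val w]
    rw [map_natCast]
    rfl
  rw [e]
  unfold gg
  rw [Nat.Coprime.gcd_mul _ h, ZMod.val_natCast, ZMod.val_natCast]
  congr 1
  · rw [Nat.gcd_comm, Nat.gcd_rec, Nat.gcd_comm]
  · rw [Nat.gcd_comm, Nat.gcd_rec, Nat.gcd_comm]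

theorem Kl_symm (q : ℕ) [NeZero q] (w c : ZMod q) : Kl q w c = Kl q c w := by
  unfold Kl
  rw [← Equiv.sum_comp (Equiv.inv (ZMod q)ˣ)]
  refine Finset.sum_congr rfl fun u _ => ?_
  simp only [Equiv.inv_apply, inv_inv]
  rw [add_comm]

theorem Kl_triv (q : ℕ) [NeZero q] (w c : ZMod q) : ‖Kl q w c‖ ≤ q := by
  unfold Kl
  refine (norm_sum_le _ _).trans ?_
  have h2 : ∀ u : (ZMod q)ˣ, ‖(ZMod.stdAddChar (w * (u : ZMod q) +
      c * ((u⁻¹ : (ZMod q)ˣ) : ZMod q)) : ℂ)‖ ≤ 1 := by
    intro u
    rw [ZMod.stdAddChar_apply]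
    exact (Circle.norm_coe _).le
  refine (Finset.sum_le_sum fun u _ => h2 u).trans ?_
  rw [Finset.sum_const, Finset.card_univ, ZMod.card_units_eq_totient, nsmul_eq_mul, mul_one]
  exact_mod_cast Nat.totient_le q

theorem Kl_0c (q : ℕ) : ∀ [NeZero q], Squarefree q → ∀ c : ZMod q, ‖Kl q 0 c‖ ≤ gg q c := by
  induction q using Nat.strong_induction_on with
  | _ q ih =>
    intro _ hq c
    by_cases h1 : q = 1
    · subst h1
      refine (Kl_triv 1 0 c).trans ?_
      have := gg_pos 1 c
      exact_mod_cast this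
    · have hq0 : q ≠ 0 := NeZero.ne q
      have hp : (q.minFac).Prime := Nat.minFac_prime h1
      obtain ⟨q', hq'⟩ := Nat.minFac_dvd q
      generalize q.minFac = p at hp hq'
      subst hq'
      have : Fact p.Prime := ⟨hp⟩
      have hq'0 : q' ≠ 0 := fun h => hq0 (by rw [h, mul_zero])
      have : NeZero q' := ⟨hq'0⟩
      have hcop : Nat.Coprime p q' := Nat.coprime_of_squarefree_mul hq
      have hsq' : Squarefree q' := hq.squarefree_of_dvd (Dvd.intro_left p rfl)
      obtain ⟨α, β, hαβ⟩ : ∃ α β : ℤ, α * q' + β * p = 1 := by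
        have h2 : IsCoprime (q' : ℤ) (p : ℤ) := Nat.isCoprime_iff_coprime.mpr hcop.symm
        obtain ⟨a, b, hab⟩ := h2
        exact ⟨a, b, hab⟩
      have hα : IsUnit ((α : ℤ) : ZMod p) := unit_of_bezout p q' α β hαβ
      have hβ : IsUnit ((β : ℤ) : ZMod q') := unit_of_bezout q' p β α (by linarith)
      have hlt : q' < p * q' := by
        have := hp.two_le
        have h3 : 0 < q' := Nat.pos_of_ne_zero hq'0
        nlinarith
      rw [Kl_mul p q' hcop α β hαβ, norm_mul, gg_crt p q' hcop c, map_zero, Prod.fst_zero,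
        Prod.snd_zero, mul_zero, mul_zero]
      have b2 := ih q' hlt hsq' ((β : ZMod q') * (ZMod.chineseRemainder hcop c).2)
      rw [gg_unit q' _ _ hβ] at b2
      have b1 : ‖Kl p 0 ((α : ZMod p) * (ZMod.chineseRemainder hcop c).1)‖ ≤
          gg p (ZMod.chineseRemainder hcop c).1 := by
        by_cases hc : (ZMod.chineseRemainder hcop c).1 = 0
        · refine (Kl_triv p _ _).trans ?_
          rw [hc]
          unfold gg
          rw [ZMod.val_zero, Nat.gcd_zero_left]
        · rw [Kl_zero p _ (mul_ne_zero hα.ne_zero hc), norm_neg, norm_one]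
          have := gg_pos p (ZMod.chineseRemainder hcop c).1
          exact_mod_cast this
      push_cast
      exact mul_le_mul b1 b2 (norm_nonneg _) (by positivity)

theorem Kl_gen (q : ℕ) : ∀ [NeZero q], Squarefree q → ∀ w c : ZMod q,
    ‖Kl q w c‖ ≤ 2 ^ q.primeFactors.card * Real.sqrt q * gg q c := by
  induction q using Nat.strong_induction_on with
  | _ q ih =>
    intro _ hq w c
    by_cases h1 : q = 1
    · subst h1
      refine (Kl_triv 1 w c).trans ?_
      have h2 := gg_pos 1 c
      have h3 : (1 : ℝ) ≤ gg 1 c := by exact_mod_cast h2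
      simpa using h3
    · have hq0 : q ≠ 0 := NeZero.ne q
      have hp : (q.minFac).Prime := Nat.minFac_prime h1
      obtain ⟨q', hq'⟩ := Nat.minFac_dvd q
      generalize q.minFac = p at hp hq'
      subst hq'
      have : Fact p.Prime := ⟨hp⟩
      have hq'0 : q' ≠ 0 := fun h => hq0 (by rw [h, mul_zero])
      have : NeZero q' := ⟨hq'0⟩
      have hcop : Nat.Coprime p q' := Nat.coprime_of_squarefree_mul hq
      have hsq' : Squarefree q' := hq.squarefree_of_dvd (Dvd.intro_left p rfl)
      obtain ⟨α, β, hαβ⟩ : ∃ α β : ℤ, α * q' + β * p = 1 := by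
        have h2 : IsCoprime (q' : ℤ) (p : ℤ) := Nat.isCoprime_iff_coprime.mpr hcop.symm
        obtain ⟨a, b, hab⟩ := h2
        exact ⟨a, b, hab⟩
      have hα : IsUnit ((α : ℤ) : ZMod p) := unit_of_bezout p q' α β hαβ
      have hβ : IsUnit ((β : ℤ) : ZMod q') := unit_of_bezout q' p β α (by linarith)
      have hlt : q' < p * q' := by
        have := hp.two_le
        have h3 : 0 < q' := Nat.pos_of_ne_zero hq'0
        nlinarith
      rw [Kl_mul p q' hcop α β hαβ, norm_mul, gg_crt p q' hcop c]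
      have b2 := ih q' hlt hsq' ((β : ZMod q') * (ZMod.chineseRemainder hcop w).2)
        ((β : ZMod q') * (ZMod.chineseRemainder hcop c).2)
      rw [gg_unit q' _ _ hβ] at b2
      have b1 : ‖Kl p ((α : ZMod p) * (ZMod.chineseRemainder hcop w).1)
          ((α : ZMod p) * (ZMod.chineseRemainder hcop c).1)‖ ≤
          2 * Real.sqrt p * gg p (ZMod.chineseRemainder hcop c).1 := by
        have hs1 : (1 : ℝ) ≤ Real.sqrt p := by
          rw [Real.one_le_sqrt]
          exact_mod_cast hp.one_le
        by_cases hc : (ZMod.chineseRemainder hcop c).1 = 0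
        · refine (Kl_triv p _ _).trans ?_
          rw [hc]
          unfold gg
          rw [ZMod.val_zero, Nat.gcd_zero_left]
          have : (0 : ℝ) ≤ p := Nat.cast_nonneg p
          nlinarith
        · have h3 := gg_pos p (ZMod.chineseRemainder hcop c).1
          have h4 : (1 : ℝ) ≤ gg p (ZMod.chineseRemainder hcop c).1 := by exact_mod_cast h3
          have h5 := Kl_prime p ((α : ZMod p) * (ZMod.chineseRemainder hcop w).1)
            ((α : ZMod p) * (ZMod.chineseRemainder hcop c).1)
            (IsUnit.mk0 _ (mul_ne_zero hα.ne_zero hc))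
          refine h5.trans ?_
          nlinarith
      have hcard : (p * q').primeFactors.card = 1 + q'.primeFactors.card := by
        rw [hcop.primeFactors_mul, Finset.card_union_of_disjoint hcop.disjoint_primeFactors,
          hp.primeFactors, Finset.card_singleton]
      rw [hcard, Nat.cast_mul, Real.sqrt_mul (by positivity)]
      calc _ ≤ (2 * Real.sqrt p * gg p (ZMod.chineseRemainder hcop c).1) *
            (2 ^ q'.primeFactors.card * Real.sqrt q' *
              gg q' (ZMod.chineseRemainder hcop c).2) :=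
            mul_le_mul b1 b2 (norm_nonneg _) (by positivity)
        _ = _ := by rw [pow_add]; push_cast; ring

end Pool.Agent.H350.TD
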