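import Pool.Agent.H350.TD.Core
import Pool.Agent.H592.TD.Stm

/-! TD-S1 (for helper592): counts of pairs in boxes. -/

set_option autoImplicit false

namespace Pool.Agent.H350.TD

open Finset
open Pool.Agent.H442R2.KF Pool.Agent.H442R2.KF.TaskB

theorem NN_units (q : ℕ) [NeZero q] (κ : (ZMod q)ˣ) (m n : ZMod q) (J H : ℕ) :
    (NN q κ m n J H : ℂ) =
      ∑ t : (ZMod q)ˣ, (∑ j ∈ range J, if m + (j : ZMod q) = (t : ZMod q) then (1 : ℂ) else 0) *
        (∑ k ∈ range H,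
          if n + (k : ZMod q) = (κ : ZMod q) * ((t⁻¹ : (ZMod q)ˣ) : ZMod q) then (1 : ℂ) else 0) := by
  unfold NN
  rw [card_filter, Nat.cast_sum, sum_product]
  have h1 : ∀ j ∈ range J, ∀ k ∈ range H,
      (((if (m + ((j, k) : ℕ × ℕ).1) * (n + ((j, k) : ℕ × ℕ).2) = (κ : ZMod q) then 1 else 0 : ℕ) : ℂ)) =
      ∑ t : (ZMod q)ˣ, (if m + (j : ZMod q) = (t : ZMod q) then (1 : ℂ) else 0) *
        (if n + (k : ZMod q) = (κ : ZMod q) * ((t⁻¹ : (ZMod q)ˣ) : ZMod q) then (1 : ℂ) else 0) := by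
    intro j _ k _
    rw [← ind_two]
    push_cast
    rfl
  rw [sum_congr rfl (fun j hj => sum_congr rfl (fun k hk => h1 j hj k hk))]
  rw [sum_congr rfl (fun j _ => sum_comm), sum_comm]
  apply sum_congr rfl
  intro t _
  rw [sum_mul_sum]

theorem ind_full (q : ℕ) [NeZero q] (m x : ZMod q) :
    (∑ j ∈ range q, if m + (j : ZMod q) = x then (1 : ℂ) else 0) = 1 := by
  rw [sum_eq_single (x - m).val]
  · rw [if_pos]
    rw [ZMod.natCast_zmod_val]
    ring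
  · intro b hb hne
    rw [if_neg]
    intro h
    apply hne
    have h1 : (b : ZMod q) = x - m := by rw [← h]; ring
    rw [← h1, ZMod.val_natCast_of_lt (mem_range.mp hb)]
  · intro h
    exact absurd (mem_range.mpr (ZMod.val_lt _)) h

theorem NN_full (q : ℕ) [NeZero q] (κ : (ZMod q)ˣ) (m n : ZMod q) :
    NN q κ m n q q = Nat.totient q := by
  have h := NN_units q κ m n q q
  simp only [ind_full, mul_one, sum_const, card_univ, ZMod.card_units_eq_totient, nsmul_eq_mul] at h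
  exact_mod_cast h

/-- the number of the `j` with `b₀ + R j < x` -/
def gJ (R b₀ x : ℕ) : ℕ := (x + (R - 1 - b₀)) / R

theorem lt_gJ (R b₀ x j : ℕ) (hb : b₀ < R) : j < gJ R b₀ x ↔ b₀ + R * j < x := by
  unfold gJ
  have hR : 0 < R := by omega
  rw [Nat.lt_iff_add_one_le, Nat.le_div_iff_mul_le hR]
  have h1 : (j + 1) * R = R * j + R := by ring
  rw [h1]
  omega

theorem gJ_zero (R b₀ : ℕ) (hb : b₀ < R) : gJ R b₀ 0 = 0 := by
  unfold gJ
  apply Nat.div_eq_of_lt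
  omega

theorem gJ_full (R b₀ q : ℕ) (hb : b₀ < R) : gJ R b₀ (R * q) = q := by
  unfold gJ
  have hR : 0 < R := by omega
  rw [add_comm, Nat.add_mul_div_left _ _ hR, Nat.div_eq_of_lt (by omega), zero_add]

theorem gJ_mono (R b₀ x y : ℕ) (h : x ≤ y) : gJ R b₀ x ≤ gJ R b₀ y :=
  Nat.div_le_div_right (by omega)

theorem gJ_bd (R b₀ x y : ℕ) (hb : b₀ < R) (h : x ≤ y) :
    |((gJ R b₀ y - gJ R b₀ x : ℕ) : ℝ) - ((y : ℝ) - x) / R| ≤ 1 := by
  have hR : 0 < R := by omega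
  have hRr : (0 : ℝ) < R := by exact_mod_cast hR
  rw [Nat.cast_sub (gJ_mono R b₀ x y h)]
  have key : ∀ z : ℕ, ((gJ R b₀ z : ℕ) : ℝ) ≤ ((z : ℝ) + ((R - 1 - b₀ : ℕ) : ℝ)) / R ∧
      ((z : ℝ) + ((R - 1 - b₀ : ℕ) : ℝ)) / R ≤ (gJ R b₀ z : ℕ) + 1 := by
    intro z
    constructor
    · rw [le_div_iff₀ hRr]
      have : gJ R b₀ z * R ≤ z + (R - 1 - b₀) := Nat.div_mul_le_self _ _
      exact_mod_cast this
    · rw [div_le_iff₀ hRr]
      have h1 : z + (R - 1 - b₀) < (gJ R b₀ z + 1) * R := by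
        have := Nat.lt_mul_div_succ (z + (R - 1 - b₀)) hR
        rw [mul_comm] at this
        exact this
      have h2 : z + (R - 1 - b₀) ≤ (gJ R b₀ z + 1) * R := h1.le
      exact_mod_cast h2
  obtain ⟨h1, h2⟩ := key x
  obtain ⟨h3, h4⟩ := key y
  have e : ((y : ℝ) - x) / R = ((y : ℝ) + ((R - 1 - b₀ : ℕ) : ℝ)) / R -
      ((x : ℝ) + ((R - 1 - b₀ : ℕ) : ℝ)) / R := by
    rw [← sub_div]
    congr 1
    ring
  rw [e, abs_le]
  constructor <;> linarith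

theorem eqv {A : Type} [CommRing A] (α r σ : Aˣ) (x y : A) :
    (α : A) * (r * x) * (r * y) + σ = 0 ↔
      x * y = ((-σ * α⁻¹ * r⁻¹ * r⁻¹ : Aˣ) : A) := by
  have hα : (α : A) * ((α⁻¹ : Aˣ) : A) = 1 := Units.mul_inv α
  have hr : (r : A) * ((r⁻¹ : Aˣ) : A) = 1 := Units.mul_inv r
  push_cast
  constructor
  · intro h
    linear_combination (((α⁻¹ : Aˣ) : A) * ((r⁻¹ : Aˣ) : A) ^ 2) * h -
      x * y * ((r : A) ^ 2 * ((r⁻¹ : Aˣ) : A) ^ 2) * hα -
      x * y * ((r : A) * ((r⁻¹ : Aˣ) : A) + 1) * hr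
  · intro h
    linear_combination ((α : A) * (r : A) ^ 2) * h -
      σ * ((r : A) ^ 2 * ((r⁻¹ : Aˣ) : A) ^ 2) * hα -
      σ * ((r : A) * ((r⁻¹ : Aˣ) : A) + 1) * hr

/-- the good pairs of residues modulo `R` -/
def GP (s : ℤ) (a R : ℕ) : Finset (ℕ × ℕ) :=
  (range R ×ˢ range R).filter (fun p : ℕ × ℕ => (R : ℤ) ∣ (a : ℤ) * p.1 * p.2 + s)

/-- the shifted start -/
noncomputable def mm (q R : ℕ) (r : (ZMod q)ˣ) (b₀ A₀ : ℕ) : ZMod q :=
  ((r⁻¹ : (ZMod q)ˣ) : ZMod q) * ((b₀ + R * gJ R b₀ A₀ : ℕ) : ZMod q)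

theorem mm_spec (q R : ℕ) (r : (ZMod q)ˣ) (hr : (r : ZMod q) = R) (b₀ A₀ j : ℕ) :
    ((b₀ + R * (gJ R b₀ A₀ + j) : ℕ) : ZMod q) = r * (mm q R r b₀ A₀ + (j : ZMod q)) := by
  unfold mm
  have h1 : ∀ X : ZMod q, (r : ZMod q) * (((r⁻¹ : (ZMod q)ˣ) : ZMod q) * X + (j : ZMod q)) =
      X + r * j := by
    intro X
    rw [mul_add, ← mul_assoc, Units.mul_inv, one_mul]
  rw [h1, hr]
  push_cast
  ring

theorem fibre (s : ℤ) (a R q : ℕ) [NeZero q] (hR : 0 < R) (hqR : Nat.Coprime q R)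
    (r α σ : (ZMod q)ˣ) (hr : (r : ZMod q) = R) (hα : (α : ZMod q) = a)
    (hσ : (σ : ZMod q) = s) (A₀ A₁ D₀ D₁ : ℕ) (p₀ : ℕ × ℕ) (hp : p₀ ∈ GP s a R) :
    (((Ico A₀ A₁ ×ˢ Ico D₀ D₁).filter
      (fun p : ℕ × ℕ => ((R * q : ℕ) : ℤ) ∣ (a : ℤ) * p.1 * p.2 + s)).filter
        (fun p : ℕ × ℕ => ((p.1 % R, p.2 % R) : ℕ × ℕ) = p₀)).card =
      NN q ((-σ * α⁻¹ * r⁻¹ * r⁻¹ : (ZMod q)ˣ) : ZMod q) (mm q R r p₀.1 A₀) (mm q R r p₀.2 D₀)
        (gJ R p₀.1 A₁ - gJ R p₀.1 A₀) (gJ R p₀.2 D₁ - gJ R p₀.2 D₀) := by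
  obtain ⟨b₀, c₀⟩ := p₀
  unfold GP at hp
  rw [mem_filter, mem_product, mem_range, mem_range] at hp
  obtain ⟨⟨hb, hc⟩, hdiv⟩ := hp
  simp only at hb hc hdiv
  have hcong : ∀ b c : ℕ, b % R = b₀ → c % R = c₀ → (R : ℤ) ∣ (a : ℤ) * b * c + s := by
    intro b c h1 h2
    have e1 : (b : ℤ) = R * (b / R : ℕ) + b₀ := by
      have := Nat.div_add_mod b R
      rw [h1] at this
      exact_mod_cast this.symm
    have e2 : (c : ℤ) = R * (c / R : ℕ) + c₀ := by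
      have := Nat.div_add_mod c R
      rw [h2] at this
      exact_mod_cast this.symm
    obtain ⟨z, hz⟩ := hdiv
    refine ⟨z + a * (b / R : ℕ) * c + a * b₀ * (c / R : ℕ), ?_⟩
    rw [e1]
    have e3 : (a : ℤ) * (R * (b / R : ℕ) + b₀) * c + s =
        R * (a * (b / R : ℕ) * c) + a * b₀ * c + s := by ring
    rw [e3]
    nth_rewrite 2 [e2]
    linear_combination hz
  have hq : ∀ b c : ℕ, (q : ℤ) ∣ (a : ℤ) * b * c + s ↔
      (a : ZMod q) * (b : ZMod q) * (c : ZMod q) + ((s : ℤ) : ZMod q) = 0 := by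
    intro b c
    rw [← ZMod.intCast_zmod_eq_zero_iff_dvd]
    push_cast
    rfl
  have hRq : IsCoprime (R : ℤ) (q : ℤ) := Nat.isCoprime_iff_coprime.mpr hqR.symm
  symm
  unfold NN
  refine card_bij (fun p _ => ((b₀ + R * (gJ R b₀ A₀ + p.1), c₀ + R * (gJ R c₀ D₀ + p.2)) : ℕ × ℕ))
    ?_ ?_ ?_
  · rintro ⟨j, k⟩ hjk
    rw [mem_filter, mem_product, mem_range, mem_range] at hjk
    obtain ⟨⟨hj, hk⟩, he⟩ := hjk
    simp only at hj hk he
    have m1 : (b₀ + R * (gJ R b₀ A₀ + j)) % R = b₀ := by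
      rw [Nat.add_mul_mod_self_left, Nat.mod_eq_of_lt hb]
    have m2 : (c₀ + R * (gJ R c₀ D₀ + k)) % R = c₀ := by
      rw [Nat.add_mul_mod_self_left, Nat.mod_eq_of_lt hc]
    rw [mem_filter, mem_filter, mem_product, mem_Ico, mem_Ico]
    refine ⟨⟨⟨⟨?_, ?_⟩, ⟨?_, ?_⟩⟩, ?_⟩, ?_⟩
    · show A₀ ≤ b₀ + R * (gJ R b₀ A₀ + j)
      by_contra h
      push Not at h
      rw [← lt_gJ R b₀ A₀ _ hb] at h
      omega
    · show b₀ + R * (gJ R b₀ A₀ + j) < A₁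
      rw [← lt_gJ R b₀ A₁ _ hb]
      omega
    · show D₀ ≤ c₀ + R * (gJ R c₀ D₀ + k)
      by_contra h
      push Not at h
      rw [← lt_gJ R c₀ D₀ _ hc] at h
      omega
    · show c₀ + R * (gJ R c₀ D₀ + k) < D₁
      rw [← lt_gJ R c₀ D₁ _ hc]
      omega
    · show ((R * q : ℕ) : ℤ) ∣ (a : ℤ) * ((b₀ + R * (gJ R b₀ A₀ + j) : ℕ) : ℤ) *
        ((c₀ + R * (gJ R c₀ D₀ + k) : ℕ) : ℤ) + s
      have d1 := hcong _ _ m1 m2
      have d2 : (q : ℤ) ∣ (a : ℤ) * ((b₀ + R * (gJ R b₀ A₀ + j) : ℕ) : ℤ) *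
          ((c₀ + R * (gJ R c₀ D₀ + k) : ℕ) : ℤ) + s := by
        rw [hq, mm_spec q R r hr, mm_spec q R r hr, ← hα, ← hσ, eqv]
        exact he
      push_cast at d1 d2 ⊢
      exact hRq.mul_dvd d1 d2
    · show (((b₀ + R * (gJ R b₀ A₀ + j)) % R, (c₀ + R * (gJ R c₀ D₀ + k)) % R) : ℕ × ℕ) = (b₀, c₀)
      rw [m1, m2]
  · rintro ⟨j, k⟩ _ ⟨j', k'⟩ _ heq
    simp only [Prod.mk.injEq] at heq
    obtain ⟨h1, h2⟩ := heq
    have h3 : R * (gJ R b₀ A₀ + j) = R * (gJ R b₀ A₀ + j') := by omega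
    have h4 : R * (gJ R c₀ D₀ + k) = R * (gJ R c₀ D₀ + k') := by omega
    have h5 := Nat.eq_of_mul_eq_mul_left hR h3
    have h6 := Nat.eq_of_mul_eq_mul_left hR h4
    have h7 : j = j' := by omega
    have h8 : k = k' := by omega
    rw [h7, h8]
  · rintro ⟨b, c⟩ hbc
    rw [mem_filter, mem_filter, mem_product, mem_Ico, mem_Ico] at hbc
    obtain ⟨⟨⟨⟨hA0, hA1⟩, ⟨hD0, hD1⟩⟩, hd⟩, hmod⟩ := hbc
    simp only [Prod.mk.injEq] at hA0 hA1 hD0 hD1 hd hmod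
    obtain ⟨m1, m2⟩ := hmod
    have e1 : b₀ + R * (b / R) = b := by
      rw [← m1]; exact Nat.mod_add_div b R
    have e2 : c₀ + R * (c / R) = c := by
      rw [← m2]; exact Nat.mod_add_div c R
    have g1 : gJ R b₀ A₀ ≤ b / R := by
      by_contra h
      push Not at h
      rw [lt_gJ R b₀ A₀ _ hb, e1] at h
      omega
    have g2 : b / R < gJ R b₀ A₁ := by
      rw [lt_gJ R b₀ A₁ _ hb, e1]
      exact hA1
    have g3 : gJ R c₀ D₀ ≤ c / R := by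
      by_contra h
      push Not at h
      rw [lt_gJ R c₀ D₀ _ hc, e2] at h
      omega
    have g4 : c / R < gJ R c₀ D₁ := by
      rw [lt_gJ R c₀ D₁ _ hc, e2]
      exact hD1
    have f1 : b₀ + R * (gJ R b₀ A₀ + (b / R - gJ R b₀ A₀)) = b := by
      rw [Nat.add_sub_cancel' g1, e1]
    have f2 : c₀ + R * (gJ R c₀ D₀ + (c / R - gJ R c₀ D₀)) = c := by
      rw [Nat.add_sub_cancel' g3, e2]
    refine ⟨(b / R - gJ R b₀ A₀, c / R - gJ R c₀ D₀), ?_, ?_⟩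
    · rw [mem_filter, mem_product, mem_range, mem_range]
      refine ⟨⟨?_, ?_⟩, ?_⟩
      · show b / R - gJ R b₀ A₀ < gJ R b₀ A₁ - gJ R b₀ A₀
        omega
      · show c / R - gJ R c₀ D₀ < gJ R c₀ D₁ - gJ R c₀ D₀
        omega
      · show (mm q R r b₀ A₀ + ((b / R - gJ R b₀ A₀ : ℕ) : ZMod q)) *
          (mm q R r c₀ D₀ + ((c / R - gJ R c₀ D₀ : ℕ) : ZMod q)) = _
        rw [← eqv, ← mm_spec q R r hr, ← mm_spec q R r hr, f1, f2, hα, hσ, ← hq]
        refine dvd_trans ?_ hd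
        push_cast
        exact Dvd.intro_left _ rfl
    · show ((b₀ + R * (gJ R b₀ A₀ + (b / R - gJ R b₀ A₀)),
        c₀ + R * (gJ R c₀ D₀ + (c / R - gJ R c₀ D₀))) : ℕ × ℕ) = (b, c)
      rw [f1, f2]

theorem decomp (s : ℤ) (a R q : ℕ) [NeZero q] (hR : 0 < R) (hqR : Nat.Coprime q R)
    (r α σ : (ZMod q)ˣ) (hr : (r : ZMod q) = R) (hα : (α : ZMod q) = a)
    (hσ : (σ : ZMod q) = s) (A₀ A₁ D₀ D₁ : ℕ) :
    ((Ico A₀ A₁ ×ˢ Ico D₀ D₁).filter
      (fun p : ℕ × ℕ => ((R * q : ℕ) : ℤ) ∣ (a : ℤ) * p.1 * p.2 + s)).card =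
      ∑ p₀ ∈ GP s a R,
      NN q ((-σ * α⁻¹ * r⁻¹ * r⁻¹ : (ZMod q)ˣ) : ZMod q) (mm q R r p₀.1 A₀) (mm q R r p₀.2 D₀)
        (gJ R p₀.1 A₁ - gJ R p₀.1 A₀) (gJ R p₀.2 D₁ - gJ R p₀.2 D₀) := by
  rw [card_eq_sum_card_fiberwise (f := fun p : ℕ × ℕ => ((p.1 % R, p.2 % R) : ℕ × ℕ))
    (t := GP s a R)]
  · apply sum_congr rfl
    intro p₀ hp
    exact fibre s a R q hR hqR r α σ hr hα hσ A₀ A₁ D₀ D₁ p₀ hp
  · rintro ⟨b, c⟩ hbc
    rw [Finset.mem_coe, mem_filter] at hbc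
    obtain ⟨-, hd⟩ := hbc
    simp only at hd
    rw [Finset.mem_coe]
    unfold GP
    rw [mem_filter, mem_product, mem_range, mem_range]
    refine ⟨⟨Nat.mod_lt _ hR, Nat.mod_lt _ hR⟩, ?_⟩
    show (R : ℤ) ∣ (a : ℤ) * ((b % R : ℕ) : ℤ) * ((c % R : ℕ) : ℤ) + s
    have h1 : (R : ℤ) ∣ (a : ℤ) * b * c + s := by
      refine dvd_trans ?_ hd
      push_cast
      exact Dvd.intro _ rfl
    obtain ⟨z, hz⟩ := h1
    have e1 : ((b % R : ℕ) : ℤ) = b - R * (b / R : ℕ) := by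
      have := Nat.div_add_mod b R
      have h2 : (R : ℤ) * (b / R : ℕ) + (b % R : ℕ) = b := by exact_mod_cast this
      linarith
    have e2 : ((c % R : ℕ) : ℤ) = c - R * (c / R : ℕ) := by
      have := Nat.div_add_mod c R
      have h2 : (R : ℤ) * (c / R : ℕ) + (c % R : ℕ) = c := by exact_mod_cast this
      linarith
    rw [e1, e2]
    refine ⟨z - a * (b / R : ℕ) * c - a * b * (c / R : ℕ) + a * (b / R : ℕ) * R * (c / R : ℕ), ?_⟩
    linear_combination hz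

theorem card_GP_le (s : ℤ) (a R : ℕ) : ((GP s a R).card : ℝ) ≤ (R : ℝ) ^ 2 := by
  have h : (GP s a R).card ≤ R ^ 2 := by
    unfold GP
    refine (card_filter_le _ _).trans ?_
    rw [card_product, card_range, sq]
  exact_mod_cast h

theorem rho_eq (s : ℤ) (a R q : ℕ) [NeZero q] (hR : 0 < R) (hqR : Nat.Coprime q R)
    (r α σ : (ZMod q)ˣ) (hr : (r : ZMod q) = R) (hα : (α : ZMod q) = a)
    (hσ : (σ : ZMod q) = s) :
    Pool.Agent.H592.TD.rho s a (R * q) =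
      ((GP s a R).card : ℝ) * (Nat.totient q : ℝ) / ((R : ℝ) ^ 2 * (q : ℝ) ^ 2) := by
  unfold Pool.Agent.H592.TD.rho
  rw [range_eq_Ico, decomp s a R q hR hqR r α σ hr hα hσ]
  have h1 : ∀ p₀ ∈ GP s a R,
      NN q ((-σ * α⁻¹ * r⁻¹ * r⁻¹ : (ZMod q)ˣ) : ZMod q) (mm q R r p₀.1 0) (mm q R r p₀.2 0)
        (gJ R p₀.1 (R * q) - gJ R p₀.1 0) (gJ R p₀.2 (R * q) - gJ R p₀.2 0) = Nat.totient q := by
    rintro ⟨b₀, c₀⟩ hp
    unfold GP at hp
    rw [mem_filter, mem_product, mem_range, mem_range] at hp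
    obtain ⟨⟨hb, hc⟩, -⟩ := hp
    simp only at hb hc
    simp only
    rw [gJ_full R b₀ q hb, gJ_full R c₀ q hc, gJ_zero R b₀ hb, gJ_zero R c₀ hc, Nat.sub_zero]
    exact NN_full q _ _ _
  rw [sum_congr rfl h1, sum_const, smul_eq_mul]
  push_cast
  rw [mul_pow]

theorem s1 : Pool.Agent.H592.TD.S1 := by
  intro s R q hs hR hq hqR hqs a B₀ B₁ C₀ C₁ ha hB hC
  have hq0 : 0 < q := Nat.pos_of_ne_zero hq.ne_zero
  have : NeZero q := ⟨hq0.ne'⟩
  have hqr : (0 : ℝ) < q := by exact_mod_cast hq0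
  have hq1 : (1 : ℝ) ≤ q := by exact_mod_cast hq0
  have hRr : (0 : ℝ) < R := by exact_mod_cast hR
  have hR1 : (1 : ℝ) ≤ R := by exact_mod_cast hR
  have hBr : (B₀ : ℝ) ≤ B₁ := by exact_mod_cast hB
  have hCr : (C₀ : ℝ) ≤ C₁ := by exact_mod_cast hC
  have hsq1 : (1 : ℝ) ≤ Real.sqrt q := by
    rw [Real.one_le_sqrt]
    exact hq1
  have hsq0 : (0 : ℝ) < Real.sqrt q := by linarith
  have hlogq : 0 ≤ Real.log q := Real.log_nonneg hq1
  have hRHS : 0 ≤ 8 * (R : ℝ) ^ 2 * 4 ^ q.primeFactors.card * (2 + Real.log (R * q)) ^ 2 *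
      (((B₁ : ℝ) - B₀) / Real.sqrt q + Real.sqrt q + ((C₁ : ℝ) - C₀) / q) := by
    have h1 : 0 ≤ ((B₁ : ℝ) - B₀) / Real.sqrt q := div_nonneg (by linarith) hsq0.le
    have h2 : 0 ≤ ((C₁ : ℝ) - C₀) / q := div_nonneg (by linarith) hqr.le
    positivity
  by_cases haq : Nat.Coprime a q
  · -- the coprime case
    obtain ⟨α, hα⟩ : IsUnit ((a : ℕ) : ZMod q) := (ZMod.isUnit_iff_coprime a q).2 haq
    obtain ⟨r, hr⟩ : IsUnit ((R : ℕ) : ZMod q) := (ZMod.isUnit_iff_coprime R q).2 hqR.symm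
    obtain ⟨σ, hσ⟩ : IsUnit ((s : ℤ) : ZMod q) := by
      rw [ZMod.coe_int_isUnit_iff_isCoprime, isCoprime_comm, Int.isCoprime_iff_gcd_eq_one]
      rw [Int.gcd_comm]
      exact hqs
    have hIoc : ∀ x y : ℕ, Ioc x y = Ico (x + 1) (y + 1) := by
      intro x y
      ext z
      rw [mem_Ioc, mem_Ico]
      omega
    rw [hIoc, hIoc, decomp s a R q hR hqR r α σ hr hα hσ, rho_eq s a R q hR hqR r α σ hr hα hσ]
    set L : ℝ := 2 + Real.log (R * q) with hL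
    have hL1 : 1 + Real.log q ≤ L := by
      rw [hL, Real.log_mul hRr.ne' hqr.ne']
      have : 0 ≤ Real.log R := Real.log_nonneg hR1
      linarith
    have hLL : 1 ≤ L := by linarith
    set W : ℝ := 4 ^ q.primeFactors.card * L ^ 2 with hW
    have hW1 : 1 ≤ W := by
      rw [hW]
      have h1 : (1 : ℝ) ≤ 4 ^ q.primeFactors.card := one_le_pow₀ (by norm_num)
      have h2 : (1 : ℝ) ≤ L ^ 2 := one_le_pow₀ hLL
      nlinarith
    set X : ℝ := ((B₁ : ℝ) - B₀) / R with hX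
    set Y : ℝ := ((C₁ : ℝ) - C₀) / R with hY
    have hX0 : 0 ≤ X := div_nonneg (by linarith) hRr.le
    have hY0 : 0 ≤ Y := div_nonneg (by linarith) hRr.le
    set φ : ℝ := (Nat.totient q : ℝ) / (q : ℝ) ^ 2 with hφ
    have hφ0 : 0 ≤ φ := by positivity
    have hφ1 : φ ≤ 1 / q := by
      rw [hφ, div_le_div_iff₀ (by positivity) hqr]
      have : (Nat.totient q : ℝ) ≤ q := by exact_mod_cast Nat.totient_le q
      nlinarith
    -- one pair of residues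
    have hone : ∀ p₀ ∈ GP s a R,
        |((NN q ((-σ * α⁻¹ * r⁻¹ * r⁻¹ : (ZMod q)ˣ) : ZMod q) (mm q R r p₀.1 (B₀ + 1))
          (mm q R r p₀.2 (C₀ + 1))
          (gJ R p₀.1 (B₁ + 1) - gJ R p₀.1 (B₀ + 1))
          (gJ R p₀.2 (C₁ + 1) - gJ R p₀.2 (C₀ + 1)) : ℕ) : ℝ) - X * Y * φ| ≤
        8 * W * (X / Real.sqrt q + Real.sqrt q + Y / q) := by
      rintro ⟨b₀, c₀⟩ hp
      unfold GP at hp
      rw [mem_filter, mem_product, mem_range, mem_range] at hp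
      obtain ⟨⟨hb, hc⟩, -⟩ := hp
      simp only at hb hc
      simp only
      have hJ := gJ_bd R b₀ (B₀ + 1) (B₁ + 1) hb (by omega)
      have hH := gJ_bd R c₀ (C₀ + 1) (C₁ + 1) hc (by omega)
      set J := gJ R b₀ (B₁ + 1) - gJ R b₀ (B₀ + 1) with hJdef
      set H := gJ R c₀ (C₁ + 1) - gJ R c₀ (C₀ + 1) with hHdef
      have eX : (((B₁ + 1 : ℕ) : ℝ) - ((B₀ + 1 : ℕ) : ℝ)) / R = X := by
        rw [hX]; push_cast; ring
      have eY : (((C₁ + 1 : ℕ) : ℝ) - ((C₀ + 1 : ℕ) : ℝ)) / R = Y := by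
        rw [hY]; push_cast; ring
      rw [eX] at hJ
      rw [eY] at hH
      have hc1 := core q hq (-σ * α⁻¹ * r⁻¹ * r⁻¹) (mm q R r b₀ (B₀ + 1))
        (mm q R r c₀ (C₀ + 1)) J H
      rw [mul_div_assoc, ← hφ] at hc1
      have hJ0 : (0 : ℝ) ≤ J := Nat.cast_nonneg J
      have hH0 : (0 : ℝ) ≤ H := Nat.cast_nonneg H
      have hJ1 : (J : ℝ) ≤ X + 1 := by
        have := (abs_le.mp hJ).2
        linarith
      have hH1 : (H : ℝ) ≤ Y + 1 := by
        have := (abs_le.mp hH).2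
        linarith
      have hd : |(J : ℝ) * H * φ - X * Y * φ| ≤ (X + Y + 1) * (1 / q) := by
        have e : (J : ℝ) * H * φ - X * Y * φ = (((J : ℝ) - X) * H + X * ((H : ℝ) - Y)) * φ := by
          ring
        rw [e, abs_mul, abs_of_nonneg hφ0]
        apply mul_le_mul _ hφ1 hφ0 (by positivity)
        refine (abs_add_le _ _).trans ?_
        rw [abs_mul, abs_mul, abs_of_nonneg hH0, abs_of_nonneg hX0]
        have h1 : |(J : ℝ) - X| * H ≤ 1 * H := mul_le_mul_of_nonneg_right hJ hH0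
        have h2 : X * |(H : ℝ) - Y| ≤ X * 1 := mul_le_mul_of_nonneg_left hH hX0
        linarith
      have h4 : (2 : ℝ) ^ q.primeFactors.card * (1 + Real.log q) ≤ W := by
        rw [hW]
        apply mul_le_mul
        · exact pow_le_pow_left₀ (by norm_num) (by norm_num) _
        · nlinarith
        · linarith
        · positivity
      have h5 : (4 : ℝ) ^ q.primeFactors.card * (1 + Real.log q) ^ 2 ≤ W := by
        rw [hW]
        apply mul_le_mul_of_nonneg_left _ (by positivity)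
        exact pow_le_pow_left₀ (by linarith) hL1 2
      have h6 : 4 ^ q.primeFactors.card * (1 + Real.log q) ^ 2 * Real.sqrt q ≤
          W * Real.sqrt q := mul_le_mul_of_nonneg_right h5 hsq0.le
      have h7 : 2 ^ q.primeFactors.card * (1 + Real.log q) * ((J : ℝ) + H) / q ≤
          W * (X + Y + 2) / q := by
        apply div_le_div_of_nonneg_right _ hqr.le
        apply mul_le_mul h4 (by linarith) (by positivity) (by linarith)
      have h8 : (X + Y + 1) * (1 / q) ≤ W * (X + Y + 1) / q := by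
        rw [mul_one_div]
        apply div_le_div_of_nonneg_right _ hqr.le
        nlinarith
      have h9 : 1 / (q : ℝ) ≤ Real.sqrt q := by
        refine le_trans ?_ hsq1
        rw [div_le_one hqr]
        exact hq1
      have h10 : X / q ≤ X / Real.sqrt q := by
        apply div_le_div_of_nonneg_left hX0 hsq0
        rw [Real.sqrt_le_left (by linarith)]
        nlinarith
      have hYq : 0 ≤ Y / q := div_nonneg hY0 hqr.le
      have hXs : 0 ≤ X / Real.sqrt q := div_nonneg hX0 hsq0.le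
      have h11 : Real.sqrt q + (X + Y + 2) / q + (X + Y + 1) / q ≤
          8 * (X / Real.sqrt q + Real.sqrt q + Y / q) := by
        have e1 : (X + Y + 2) / q + (X + Y + 1) / q = 2 * (X / q) + 2 * (Y / q) + 3 * (1 / q) := by
          ring
        linarith
      have htri : |((NN q ((-σ * α⁻¹ * r⁻¹ * r⁻¹ : (ZMod q)ˣ) : ZMod q) (mm q R r b₀ (B₀ + 1))
          (mm q R r c₀ (C₀ + 1)) J H : ℕ) : ℝ) - X * Y * φ| ≤
          |((NN q ((-σ * α⁻¹ * r⁻¹ * r⁻¹ : (ZMod q)ˣ) : ZMod q) (mm q R r b₀ (B₀ + 1))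
          (mm q R r c₀ (C₀ + 1)) J H : ℕ) : ℝ) - (J : ℝ) * H * φ| +
          |(J : ℝ) * H * φ - X * Y * φ| := abs_sub_le _ _ _
      calc _ ≤ _ := htri
        _ ≤ (W * Real.sqrt q + W * (X + Y + 2) / q) + W * (X + Y + 1) / q := by linarith
        _ = W * (Real.sqrt q + (X + Y + 2) / q + (X + Y + 1) / q) := by ring
        _ ≤ W * (8 * (X / Real.sqrt q + Real.sqrt q + Y / q)) :=
            mul_le_mul_of_nonneg_left h11 (by linarith)
        _ = 8 * W * (X / Real.sqrt q + Real.sqrt q + Y / q) := by ring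
    -- sum
    have hmainterm : ((B₁ : ℝ) - B₀) * ((C₁ : ℝ) - C₀) *
        (((GP s a R).card : ℝ) * (Nat.totient q : ℝ) / ((R : ℝ) ^ 2 * (q : ℝ) ^ 2)) =
        ∑ p₀ ∈ GP s a R, X * Y * φ := by
      rw [sum_const, nsmul_eq_mul, hX, hY, hφ]
      field_simp
    rw [hmainterm]
    push_cast
    rw [← sum_sub_distrib]
    refine (abs_sum_le_sum_abs _ _).trans ?_
    refine (sum_le_sum hone).trans ?_
    rw [sum_const, nsmul_eq_mul]
    have hXB : X / Real.sqrt q ≤ ((B₁ : ℝ) - B₀) / Real.sqrt q := by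
      apply div_le_div_of_nonneg_right _ hsq0.le
      rw [hX]
      exact div_le_self (by linarith) hR1
    have hYC : Y / q ≤ ((C₁ : ℝ) - C₀) / q := by
      apply div_le_div_of_nonneg_right _ hqr.le
      rw [hY]
      exact div_le_self (by linarith) hR1
    have hYq : 0 ≤ Y / q := div_nonneg hY0 hqr.le
    have hXs : 0 ≤ X / Real.sqrt q := div_nonneg hX0 hsq0.le
    calc ((GP s a R).card : ℝ) * (8 * W * (X / Real.sqrt q + Real.sqrt q + Y / q)) ≤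
          (R : ℝ) ^ 2 * (8 * W * (((B₁ : ℝ) - B₀) / Real.sqrt q + Real.sqrt q +
            ((C₁ : ℝ) - C₀) / q)) := by
          apply mul_le_mul (card_GP_le s a R) _ (by positivity) (by positivity)
          apply mul_le_mul_of_nonneg_left _ (by positivity)
          linarith
      _ = _ := by rw [hW]; ring
  · -- a common prime: no solution
    have hno : ∀ b c : ℕ, ¬ (((R * q : ℕ) : ℤ) ∣ (a : ℤ) * b * c + s) := by
      intro b c hd
      obtain ⟨p, hp, hpa, hpq⟩ := Nat.Prime.not_coprime_iff_dvd.mp haq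
      have h1 : (p : ℤ) ∣ (a : ℤ) * b * c + s := by
        refine dvd_trans ?_ hd
        push_cast
        exact Dvd.dvd.mul_left (by exact_mod_cast hpq) _
      have h2 : (p : ℤ) ∣ (a : ℤ) * b * c := by
        have : (p : ℤ) ∣ (a : ℤ) := by exact_mod_cast hpa
        exact Dvd.dvd.mul_right (Dvd.dvd.mul_right this _) _
      have h3 : (p : ℤ) ∣ s := (dvd_add_right h2).mp h1
      have h4 : p ∣ s.natAbs := Int.natCast_dvd.mp h3
      exact hp.one_lt.ne' (Nat.eq_one_of_dvd_coprimes hqs hpq h4)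
    have hz1 : ((Ioc B₀ B₁ ×ˢ Ioc C₀ C₁).filter
      (fun p : ℕ × ℕ => ((R * q : ℕ) : ℤ) ∣ (a : ℤ) * p.1 * p.2 + s)) = ∅ := by
      rw [filter_eq_empty_iff]
      intro p _
      exact hno p.1 p.2
    have hz2 : Pool.Agent.H592.TD.rho s a (R * q) = 0 := by
      unfold Pool.Agent.H592.TD.rho
      have : ((range (R * q) ×ˢ range (R * q)).filter
          (fun p : ℕ × ℕ => ((R * q : ℕ) : ℤ) ∣ (a : ℤ) * p.1 * p.2 + s)) = ∅ := by
        rw [filter_eq_empty_iff]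
        intro p _
        exact hno p.1 p.2
      rw [this]
      simp
    rw [hz1, hz2, card_empty, Nat.cast_zero, mul_zero, sub_zero, abs_zero]
    exact hRHS

end Pool.Agent.H350.TD
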